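import Pool.Agent.V11250.ZRamsey

/-!
# MP_970e84_lc, Q1: answer yes

The integers with the relations `y = x + n` (structure `M`), and the same structure with one more
relation `x - y is even` (structure `M'`), are Fraisse structures with the same automorphism
group, the group of translations. The first one has FPT, the second one has not.
-/

set_option autoImplicit false
set_option linter.style.haveILetI false

namespace Pool.Agent.Results.MP_970e84_lc.NotDetermined

open FirstOrder FirstOrder.Language Pool.Agent.V11250.TypesOver Pool.Agent.V11250.ZStruct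

/-- The automorphism group of the structure `M`, as a group of permutations of `M`. -/
def autGroup (L : FirstOrder.Language.{0, 0}) (M : Type) [L.Structure M] :
    Subgroup (Equiv.Perm M) where
  carrier := {σ | ∃ g : M ≃[L] M, g.toEquiv = σ}
  mul_mem' := by
    rintro _ _ ⟨g, rfl⟩ ⟨h, rfl⟩
    exact ⟨g.comp h, rfl⟩
  one_mem' := ⟨FirstOrder.Language.Equiv.refl L M, rfl⟩
  inv_mem' := by
    rintro _ ⟨g, rfl⟩
    exact ⟨g.symm, rfl⟩

/-- The topology of pointwise convergence on the automorphism group (`M` being discrete). -/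
@[reducible] def pointwiseTop (L : FirstOrder.Language.{0, 0}) (M : Type) [L.Structure M] :
    TopologicalSpace (autGroup L M) :=
  TopologicalSpace.induced (fun σ => ((σ : Equiv.Perm M) : M → M))
    (@Pi.topologicalSpace M (fun _ => M) fun _ => ⊥)

/-- The structure `M'`: the integers with the relations `y = x + n` and the relation `y - x` is
even. -/
@[reducible] def zmEven : (LB (Option ℤ)).Structure ℤ :=
  binStr fun n a b => match n with
    | none => Even (b - a)
    | some n => b = a + n

theorem good_zmEven : Good (fun (n : Option ℤ) (a b : ℤ) => match n with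
    | none => Even (b - a)
    | some n => b = a + n) where
  inv := by
    intro x a b t
    cases x with
    | none =>
      show Even (b + t - (a + t)) ↔ Even (b - a)
      rw [show b + t - (a + t) = b - a by ring]
    | some n =>
      show b + t = a + t + n ↔ b = a + n
      constructor <;> intro h <;> linarith
  all := fun n => ⟨some n, fun a b => Iff.rfl⟩

theorem mem_autGroup {X : Type} {ρ : X → ℤ → ℤ → Prop} (hρ : Good ρ) (σ : Equiv.Perm ℤ) :
    letI := binStr ρ; σ ∈ autGroup (LB X) ℤ ↔ ∃ t : ℤ, ∀ a, σ a = a + t := by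
  letI := binStr ρ
  constructor
  · rintro ⟨g, rfl⟩
    exact ⟨g 0, fun a => aut_eq hρ g a⟩
  · rintro ⟨t, ht⟩
    refine ⟨trans hρ t, ?_⟩
    ext a
    rw [ht a]
    rfl

theorem not_fpt : letI := zmEven; ¬ FPT (LB (Option ℤ)) ℤ := by
  classical
  letI := zmEven
  intro h
  -- the whole space of 1-types is a subflow
  let E : (LB (Option ℤ)).Formula (Fin 1 ⊕ Fin 1) :=
    Relations.formula₂ (sym none) (Term.var (Sum.inl 0)) (Term.var (Sum.inr 0))
  let c : ℤ → PFormula (LB (Option ℤ)) ℤ 1 := fun z => ⟨1, E, fun _ => z⟩
  have hc : ∀ (z : ℤ) (a : Fin 1 → ℤ), (c z).Holds a ↔ Even (z - a 0) := by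
    intro z a
    unfold PFormula.Holds
    simp only [c, E, Formula.realize_rel₂, Term.realize_var]
    exact Iff.rfl
  have hne : (Set.univ : Set (TypeOver (LB (Option ℤ)) ℤ 1)).Nonempty := by
    refine ⟨{ formulas := {d | d.Holds fun _ => 0}, complete := ?_, finSat := ?_ }, trivial⟩
    · intro d
      exact em _
    · intro F hF
      exact ⟨fun _ => 0, fun d hd => hF d hd⟩
  obtain ⟨p, -, hp⟩ := h 1 le_rfl Set.univ hne isClosed_univ (fun _ _ _ => trivial)
  -- the fixed type `p`
  have hmove : ∀ z : ℤ, c z ∈ p.formulas ↔ c (z + 1) ∈ p.formulas := by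
    intro z
    have h1 := TypeOver.move_mem_act (trans good_zmEven 1) p (c z)
    rw [hp] at h1
    rw [← h1]
    exact Iff.rfl
  rcases p.complete (c 0) with h0 | h0
  · have h1 : c 1 ∈ p.formulas := (hmove 0).1 h0
    obtain ⟨a, ha⟩ := p.finSat {c 0, c 1} (by
      intro d hd
      rcases Finset.mem_insert.1 hd with rfl | hd
      · exact h0
      · rw [Finset.mem_singleton.1 hd]; exact h1)
    have h2 := (hc 0 a).1 (ha (c 0) (by simp))
    have h3 := (hc 1 a).1 (ha (c 1) (by simp))
    rw [Int.even_iff] at h2 h3
    omega
  · have h0' : c 0 ∉ p.formulas := (p.neg_mem_iff _).1 h0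
    have h1' : c 1 ∉ p.formulas := fun h => h0' ((hmove 0).2 h)
    have h1 : (c 1).neg ∈ p.formulas := (p.neg_mem_iff _).2 h1'
    obtain ⟨a, ha⟩ := p.finSat {(c 0).neg, (c 1).neg} (by
      intro d hd
      rcases Finset.mem_insert.1 hd with rfl | hd
      · exact h0
      · rw [Finset.mem_singleton.1 hd]; exact h1)
    have h2 : ¬ Even (0 - a 0) := fun h => (ha (c 0).neg (by simp)) ((hc 0 a).2 h)
    have h3 : ¬ Even (1 - a 0) := fun h => (ha (c 1).neg (by simp)) ((hc 1 a).2 h)
    rw [Int.even_iff] at h2 h3
    omega

/-- There are Fraisse structures `M` and `M'` (countably infinite ultrahomogeneous structures in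
countable relational languages) whose automorphism groups are isomorphic as topological groups,
such that `M` has FPT and `M'` does not have FPT. -/
theorem result : ∃ (L L' : FirstOrder.Language.{0, 0}) (_ : L.IsRelational) (_ : L'.IsRelational)
    (_ : Countable (Σ n, L.Relations n)) (_ : Countable (Σ n, L'.Relations n))
    (M M' : Type) (_ : L.Structure M) (_ : L'.Structure M'),
    Countable M ∧ Infinite M ∧ L.IsUltrahomogeneous M ∧
    Countable M' ∧ Infinite M' ∧ L'.IsUltrahomogeneous M' ∧
    (∃ e : autGroup L M ≃* autGroup L' M',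
      @Continuous _ _ (pointwiseTop L M) (pointwiseTop L' M') e ∧
      @Continuous _ _ (pointwiseTop L' M') (pointwiseTop L M) e.symm) ∧
    FPT L M ∧ ¬ FPT L' M' := by
  have hgr : @autGroup (LB ℤ) ℤ zm = @autGroup (LB (Option ℤ)) ℤ zmEven := by
    ext σ
    exact (mem_autGroup good_zm σ).trans (mem_autGroup good_zmEven σ).symm
  refine ⟨LB ℤ, LB (Option ℤ), inferInstance, inferInstance, inferInstance, inferInstance, ℤ, ℤ,
    zm, zmEven, inferInstance, inferInstance, ultrahomogeneous good_zm,
    inferInstance, inferInstance, ultrahomogeneous good_zmEven,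
    ⟨MulEquiv.subgroupCongr hgr, ?_, ?_⟩, zm_fpt, not_fpt⟩
  · unfold pointwiseTop
    rw [continuous_induced_rng]
    exact continuous_induced_dom
  · unfold pointwiseTop
    rw [continuous_induced_rng]
    exact continuous_induced_dom

end Pool.Agent.Results.MP_970e84_lc.NotDetermined
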